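import Mathlib

/-!
# Every finite connected reflexive graph is a confluent image of a vertex-transitive one

For a finite connected graph `H` let `G` be the Cayley graph of the symmetric group on the vertices
of `H` whose generators are the transpositions of the ends of the edges of `H`, and map `σ` to
`σ⁻¹ v₀`. Every edge of `H` at the image of `σ` lifts to an edge of `G` at `σ`.
-/

set_option autoImplicit false

namespace Pool.Agent.Results.MP_be9f3f_co.CayleyCover

/-- A graph in the sense of the problem: a reflexive and symmetric relation on the vertex set. -/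
structure ReflGraph (V : Type) where
  Adj : V → V → Prop
  refl : ∀ v, Adj v v
  symm : ∀ u v, Adj u v → Adj v u

variable {V W : Type}

/-- A homomorphism maps edges to edges. -/
def IsHom (A : ReflGraph V) (B : ReflGraph W) (f : V → W) : Prop :=
  ∀ a b, A.Adj a b → B.Adj (f a) (f b)

/-- An epimorphism is a homomorphism that is surjective on vertices and on edges. -/
def IsEpi (A : ReflGraph V) (B : ReflGraph W) (f : V → W) : Prop :=
  IsHom A B f ∧ Function.Surjective f ∧ ∀ x y, B.Adj x y → ∃ a b, A.Adj a b ∧ f a = x ∧ f b = y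

/-- A set `S` of vertices is connected if it cannot be split into two nonempty parts `P`, `Q` with
no edge between them. -/
def IsConn (A : ReflGraph V) (S : Set V) : Prop :=
  ∀ P Q : Set V, P.Nonempty → Q.Nonempty → P ∪ Q = S → ∃ p ∈ P, ∃ q ∈ Q, A.Adj p q

/-- `C` is a component of `S`: a maximal connected subset of `S`. -/
def IsComponent (A : ReflGraph V) (S C : Set V) : Prop :=
  C ⊆ S ∧ IsConn A C ∧ ∀ D : Set V, C ⊆ D → D ⊆ S → IsConn A D → D = C

/-- The epimorphism `f` is confluent: for every connected set `Q` of vertices of `B` every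
component of its preimage is mapped onto `Q`. -/
def IsConfluentEpi (A : ReflGraph V) (B : ReflGraph W) (f : V → W) : Prop :=
  IsEpi A B f ∧ ∀ Q : Set W, IsConn B Q → ∀ C : Set V, IsComponent A (f ⁻¹' Q) C → f '' C = Q

/-- `A` is homogeneous (vertex-transitive): for all vertices `x`, `y` some automorphism (injective
epimorphism from `A` to `A`) sends `x` to `y`. -/
def IsHomogeneous (A : ReflGraph V) : Prop :=
  ∀ x y : V, ∃ g : V → V, IsEpi A A g ∧ Function.Injective g ∧ g x = y

open Equiv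

/-- the Cayley graph of the symmetric group with respect to the transpositions of edges of `H` -/
def cay (H : ReflGraph W) [DecidableEq W] : ReflGraph (Perm W) where
  Adj σ τ := σ = τ ∨ ∃ a b, H.Adj a b ∧ τ = σ * swap a b
  refl _ := Or.inl rfl
  symm σ τ h := by
    rcases h with rfl | ⟨a, b, h, rfl⟩
    · exact Or.inl rfl
    · exact Or.inr ⟨a, b, h, by rw [mul_assoc, swap_mul_self, mul_one]⟩

lemma closure_eq_top [Finite W] [DecidableEq W] (H : ReflGraph W) (hH : IsConn H Set.univ) :
    Subgroup.closure {σ : Perm W | ∃ a b, a ≠ b ∧ H.Adj a b ∧ σ = swap a b} = ⊤ := by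
  set S : Set (Perm W) := {σ : Perm W | ∃ a b, a ≠ b ∧ H.Adj a b ∧ σ = swap a b} with hS
  have htrans : MulAction.IsPretransitive (Subgroup.closure S) W := by
    refine ⟨fun x y => ?_⟩
    by_contra hxy
    obtain ⟨p, hp, q, hq, hpq⟩ := hH {w | ∃ g : Subgroup.closure S, g • x = w}
      {w | ¬ ∃ g : Subgroup.closure S, g • x = w} ⟨x, 1, one_smul _ _⟩ ⟨y, hxy⟩
      (by ext w; simp only [Set.mem_union, Set.mem_ofPred_eq, Set.mem_univ, iff_true]; exact em _)
    obtain ⟨g, hg⟩ := hp
    apply hq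
    have hne : p ≠ q := by
      rintro rfl
      exact hq ⟨g, hg⟩
    refine ⟨⟨swap p q, Subgroup.subset_closure ⟨p, q, hne, hpq, rfl⟩⟩ * g, ?_⟩
    rw [mul_smul, hg]
    show swap p q p = q
    exact swap_apply_left p q
  refine closure_of_isSwap_of_isPretransitive ?_
  rintro σ ⟨a, b, hab, _, rfl⟩
  exact ⟨a, b, hab, rfl⟩

lemma cay_conn [Finite W] [DecidableEq W] (H : ReflGraph W) (hH : IsConn H Set.univ) :
    IsConn (cay H) Set.univ := by
  intro P Q hP hQ hPQ
  by_contra hno
  push Not at hno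
  obtain ⟨p, hp⟩ := hP
  obtain ⟨q, hq⟩ := hQ
  have hclosed : ∀ g : Perm W, ∀ σ ∈ P, σ * g ∈ P := by
    intro g
    have hg : g ∈ Subgroup.closure {σ : Perm W | ∃ a b, a ≠ b ∧ H.Adj a b ∧ σ = swap a b} := by
      rw [closure_eq_top H hH]; trivial
    have hstep : ∀ a b, H.Adj a b → ∀ σ ∈ P, σ * swap a b ∈ P := by
      intro a b hab σ hσ
      by_contra hn
      have hmem : σ * swap a b ∈ Q := by
        have : σ * swap a b ∈ P ∪ Q := by rw [hPQ]; trivial
        exact this.resolve_left hn
      exact hno σ hσ _ hmem (Or.inr ⟨a, b, hab, rfl⟩)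
    induction hg using Subgroup.closure_induction with
    | mem x hx =>
      obtain ⟨a, b, _, hab, rfl⟩ := hx
      exact hstep a b hab
    | one => intro σ hσ; rwa [mul_one]
    | mul x y _ _ hx hy => intro σ hσ; rw [← mul_assoc]; exact hy _ (hx _ hσ)
    | inv x _ hx =>
      intro σ hσ
      -- the finite order argument
      have hpow : ∀ n : ℕ, ∀ σ ∈ P, σ * x ^ n ∈ P := by
        intro n
        induction n with
        | zero => intro σ hσ; rwa [pow_zero, mul_one]
        | succ n ih => intro σ hσ; rw [pow_succ, ← mul_assoc]; exact hx _ (ih _ hσ)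
      have h1 : x⁻¹ = x ^ (orderOf x - 1) := by
        rw [inv_eq_iff_mul_eq_one, ← pow_succ', Nat.sub_add_cancel (orderOf_pos x), pow_orderOf_eq_one]
      rw [h1]
      exact hpow _ σ hσ
  have hqP : q ∈ P := by
    have := hclosed (p⁻¹ * q) p hp
    rwa [mul_inv_cancel_left] at this
  exact hno q hqP q hq ((cay H).refl q)

lemma cay_homogeneous [DecidableEq W] (H : ReflGraph W) : IsHomogeneous (cay H) := by
  intro x y
  refine ⟨fun σ => (y * x⁻¹) * σ, ⟨?_, ?_, ?_⟩, mul_right_injective _, by simp⟩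
  · rintro σ τ (rfl | ⟨a, b, hab, rfl⟩)
    · exact Or.inl rfl
    · exact Or.inr ⟨a, b, hab, (mul_assoc _ _ _).symm⟩
  · exact Group.mulLeft_bijective _ |>.surjective
  · rintro σ τ h
    refine ⟨(y * x⁻¹)⁻¹ * σ, (y * x⁻¹)⁻¹ * τ, ?_, mul_inv_cancel_left _ _, mul_inv_cancel_left _ _⟩
    rcases h with rfl | ⟨a, b, hab, rfl⟩
    · exact Or.inl rfl
    · exact Or.inr ⟨a, b, hab, (mul_assoc _ _ _).symm⟩

lemma hom_f [DecidableEq W] (H : ReflGraph W) (v₀ : W) : IsHom (cay H) H (fun σ => σ⁻¹ v₀) := by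
  rintro σ τ (rfl | ⟨a, b, hab, rfl⟩)
  · exact H.refl _
  · show H.Adj (σ⁻¹ v₀) ((σ * swap a b)⁻¹ v₀)
    rw [mul_inv_rev, swap_inv, Perm.mul_apply]
    by_cases h1 : σ⁻¹ v₀ = a
    · rw [h1, swap_apply_left]; exact hab
    · by_cases h2 : σ⁻¹ v₀ = b
      · rw [h2, swap_apply_right]; exact H.symm _ _ hab
      · rw [swap_apply_of_ne_of_ne h1 h2]; exact H.refl _

lemma lift_f [DecidableEq W] (H : ReflGraph W) (v₀ : W) (σ : Perm W) (y : W)
    (h : H.Adj (σ⁻¹ v₀) y) : ∃ τ, (cay H).Adj σ τ ∧ τ⁻¹ v₀ = y := by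
  refine ⟨σ * swap (σ⁻¹ v₀) y, Or.inr ⟨_, _, h, rfl⟩, ?_⟩
  rw [mul_inv_rev, swap_inv, Perm.mul_apply, swap_apply_left]

lemma conn_insert (A : ReflGraph V) (C : Set V) (hC : IsConn A C) (s t : V) (hs : s ∈ C)
    (hst : A.Adj s t) : IsConn A (C ∪ {t}) := by
  intro P R hP hR hPR
  have hsub : (P ∩ C) ∪ (R ∩ C) = C := by
    rw [← Set.union_inter_distrib_right, hPR]
    exact Set.inter_eq_self_of_subset_right Set.subset_union_left
  by_cases h1 : (P ∩ C).Nonempty
  · by_cases h2 : (R ∩ C).Nonempty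
    · obtain ⟨p, hp, q, hq, h⟩ := hC _ _ h1 h2 hsub
      exact ⟨p, hp.1, q, hq.1, h⟩
    · rw [Set.not_nonempty_iff_eq_empty] at h2
      have hsP : s ∈ P := by
        rw [h2, Set.union_empty] at hsub
        rw [← hsub] at hs
        exact hs.1
      obtain ⟨r, hr⟩ := hR
      have hrt : r = t := by
        have hr' : r ∈ C ∪ {t} := by rw [← hPR]; exact Or.inr hr
        rcases hr' with hr' | hr'
        · exact absurd (show r ∈ R ∩ C from ⟨hr, hr'⟩) (by rw [h2]; exact fun h => h)
        · exact hr'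
      exact ⟨s, hsP, r, hr, hrt ▸ hst⟩
  · rw [Set.not_nonempty_iff_eq_empty] at h1
    have hsR : s ∈ R := by
      rw [h1, Set.empty_union] at hsub
      rw [← hsub] at hs
      exact hs.1
    obtain ⟨p, hp⟩ := hP
    have hpt : p = t := by
      have hp' : p ∈ C ∪ {t} := by rw [← hPR]; exact Or.inl hp
      rcases hp' with hp' | hp'
      · exact absurd (show p ∈ P ∩ C from ⟨hp, hp'⟩) (by rw [h1]; exact fun h => h)
      · exact hp'
    exact ⟨p, hp, s, hsR, hpt ▸ A.symm _ _ hst⟩

lemma confluent_of_lift (A : ReflGraph V) (B : ReflGraph W) (f : V → W) (hf : IsEpi A B f)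
    (hlift : ∀ v y, B.Adj (f v) y → ∃ w, A.Adj v w ∧ f w = y) : IsConfluentEpi A B f := by
  refine ⟨hf, ?_⟩
  intro Q hQ C hC
  obtain ⟨hCQ, hCc, hmax⟩ := hC
  apply Set.Subset.antisymm
  · rintro _ ⟨v, hv, rfl⟩
    exact hCQ hv
  · intro x hx
    have hne : C.Nonempty := by
      by_contra hn
      rw [Set.not_nonempty_iff_eq_empty] at hn
      obtain ⟨v, hv⟩ := hf.2.1 x
      have h1 : ({v} : Set V) = C := by
        refine hmax _ (by rw [hn]; exact Set.empty_subset _) ?_ ?_
        · intro w hw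
          have hwv : w = v := hw
          show f w ∈ Q
          rw [hwv, hv]; exact hx
        · rintro P R ⟨p, hp⟩ ⟨r, hr⟩ hPR
          have h1 : p = v := by
            have : p ∈ ({v} : Set V) := by rw [← hPR]; exact Or.inl hp
            exact this
          have h2 : r = v := by
            have : r ∈ ({v} : Set V) := by rw [← hPR]; exact Or.inr hr
            exact this
          exact ⟨p, hp, r, hr, by rw [h1, h2]; exact A.refl v⟩
      rw [hn] at h1
      exact absurd (Set.mem_singleton v) (by rw [h1]; exact fun h => h)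
    by_contra hxn
    obtain ⟨c, hc⟩ := hne
    obtain ⟨p, hp, q, hq, hpq⟩ := hQ (f '' C) (Q \ f '' C) ⟨f c, c, hc, rfl⟩ ⟨x, hx, hxn⟩
      (by
        rw [Set.union_sdiff_cancel]
        rintro _ ⟨v, hv, rfl⟩
        exact hCQ hv)
    obtain ⟨s, hs, rfl⟩ := hp
    obtain ⟨t, hst, rfl⟩ := hlift s q hpq
    have h1 := hmax (C ∪ {t}) Set.subset_union_left
      (by
        rintro v (hv | rfl)
        · exact hCQ hv
        · exact hq.1) (conn_insert A C hCc s t hs hst)
    exact hq.2 ⟨t, by rw [← h1]; exact Or.inr rfl, rfl⟩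

/-- Every finite connected graph `H` (reflexive, symmetric) is the image of a finite connected
homogeneous graph `G` under a confluent epimorphism. -/
theorem result : ∀ (W : Type) (_ : Finite W) (H : ReflGraph W), IsConn H Set.univ →
    ∃ (V : Type) (_ : Finite V) (G : ReflGraph V) (f : V → W),
      IsConn G Set.univ ∧ IsHomogeneous G ∧ IsConfluentEpi G H f := by
  classical
  intro W hW H hH
  rcases isEmpty_or_nonempty W with hE | ⟨⟨v₀⟩⟩
  · refine ⟨W, hW, H, id, hH, fun x => hE.elim x, confluent_of_lift _ _ _ ?_ ?_⟩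
    · exact ⟨fun a => hE.elim a, fun a => hE.elim a, fun a => hE.elim a⟩
    · exact fun v => hE.elim v
  · refine ⟨Perm W, inferInstance, cay H, fun σ => σ⁻¹ v₀, cay_conn H hH, cay_homogeneous H,
      confluent_of_lift _ _ _ ?_ (lift_f H v₀)⟩
    have hsurj : Function.Surjective (fun σ : Perm W => σ⁻¹ v₀) := by
      intro w
      exact ⟨swap v₀ w, by simp⟩
    refine ⟨hom_f H v₀, hsurj, ?_⟩
    intro x y hxy
    obtain ⟨σ, rfl⟩ := hsurj x
    obtain ⟨τ, h1, h2⟩ := lift_f H v₀ σ y hxy
    exact ⟨σ, τ, h1, rfl, h2⟩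

end Pool.Agent.Results.MP_be9f3f_co.CayleyCover
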